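import Mathlib
import Pool.Agent.R691.HalfDer

/-!
# MP_d69fce_al, Q2

`L = gl₂(ℂ) ⋉ (ℂ² ⊕ (ℂ²)*)` has no non-trivial `1/2`-derivation, but its indecomposable
central extension by the pairing `ℂ² × (ℂ²)* → ℂ` has one, namely `x ↦ f(x) c` with `f = tr` on
`gl₂(ℂ)` and `c` the new central element.
-/

set_option autoImplicit false

namespace Pool.Agent.Results.MP_d69fce_al.HalfDerivationExtension

open Pool.Agent.R691.HalfDer

/-- There is a Lie algebra `L` with no non-trivial `1/2`-derivation and an indecomposable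
one-dimensional central extension `E = L_ω` of `L` which has a non-trivial `1/2`-derivation. -/
theorem result : ∃ (L : Type) (_ : LieRing L) (_ : LieAlgebra ℂ L)
    (E : Type) (_ : LieRing E) (_ : LieAlgebra ℂ E) (ω : L →ₗ[ℂ] L →ₗ[ℂ] ℂ),
    IsCentralExtension L E ω ∧ ¬ IsCoboundary ω ∧
    (∀ φ : L →ₗ[ℂ] L, IsHalfDerivation φ → IsScalar φ) ∧
    ∃ φ : E →ₗ[ℂ] E, IsHalfDerivation φ ∧ ¬ IsScalar φ := by
  refine ⟨L8, inferInstance, inferInstance, E9, inferInstance, inferInstance, om,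
    isCentralExtension, not_coboundary, half_trivial, ?_⟩
  let φ : E9 →ₗ[ℂ] E9 := trE.smulRight cE
  have hφ : ∀ x : E9, φ x = trE x • cE := fun _ => rfl
  refine ⟨φ, ?_, ?_⟩
  · intro x y
    rw [hφ, hφ, hφ, trE_lie, smul_lie, lie_smul, cE_lie, lie_cE]
    simp
  · rintro ⟨c, hc⟩
    have h1 := hc cE
    rw [hφ, trE_cE, zero_smul] at h1
    have h2 : c = 0 := (smul_eq_zero.1 h1.symm).resolve_right cE_ne
    have h3 := hc dE
    rw [hφ, trE_dE, h2, zero_smul] at h3
    exact cE_ne ((smul_eq_zero.1 h3).resolve_left (by norm_num))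

end Pool.Agent.Results.MP_d69fce_al.HalfDerivationExtension
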