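import Mathlib
import Pool.Agent.R691.HalfDer

/-!
# MP_d69fce_al, Q1

`L = gl₂(ℂ) ⋉ (ℂ² ⊕ (ℂ²)*)` has no non-trivial transposed Poisson structure, but its indecomposable
central extension by the pairing `ℂ² × (ℂ²)* → ℂ` has one: the extension is not perfect, and
`x · y = f(x) f(y) c` with `f = tr` on `gl₂(ℂ)` and `c` the new central element.
-/

set_option autoImplicit false

namespace Pool.Agent.Results.MP_d69fce_al.TransposedPoissonExtension

open Pool.Agent.R691.HalfDer

/-- There is a Lie algebra `L` with no non-trivial transposed Poisson structure and an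
indecomposable one-dimensional central extension `E = L_ω` of `L` which admits a non-trivial
transposed Poisson structure. -/
theorem result : ∃ (L : Type) (_ : LieRing L) (_ : LieAlgebra ℂ L)
    (E : Type) (_ : LieRing E) (_ : LieAlgebra ℂ E) (ω : L →ₗ[ℂ] L →ₗ[ℂ] ℂ),
    IsCentralExtension L E ω ∧ ¬ IsCoboundary ω ∧
    (∀ μ : L →ₗ[ℂ] L →ₗ[ℂ] L, IsTransposedPoisson μ → μ = 0) ∧
    ∃ μ : E →ₗ[ℂ] E →ₗ[ℂ] E, IsTransposedPoisson μ ∧ μ ≠ 0 := by
  refine ⟨L8, inferInstance, inferInstance, E9, inferInstance, inferInstance, om,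
    isCentralExtension, not_coboundary, tp_trivial, ?_⟩
  let μ : E9 →ₗ[ℂ] E9 →ₗ[ℂ] E9 :=
    LinearMap.mk₂ ℂ (fun x y => (trE x * trE y) • cE)
      (fun x x' y => by simp only [map_add, add_mul, add_smul])
      (fun c x y => by simp only [map_smul, smul_eq_mul, smul_smul, mul_assoc])
      (fun x y y' => by simp only [map_add, mul_add, add_smul])
      (fun c x y => by
        simp only [map_smul, smul_eq_mul, smul_smul]
        congr 1
        ring)
  have hμ : ∀ x y : E9, μ x y = (trE x * trE y) • cE := fun _ _ => rfl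
  refine ⟨μ, ⟨?_, ?_, ?_⟩, ?_⟩
  · intro x y
    rw [hμ, hμ, mul_comm]
  · intro x y z
    rw [hμ, hμ, hμ, hμ, map_smul, map_smul, trE_cE]
    simp
  · intro x y z
    rw [hμ, hμ, hμ, trE_lie, smul_lie, lie_smul, cE_lie, lie_cE]
    simp
  · intro h
    have h1 : μ dE dE = 0 := by rw [h]; rfl
    rw [hμ, trE_dE] at h1
    exact cE_ne ((smul_eq_zero.1 h1).resolve_left (by norm_num))

end Pool.Agent.Results.MP_d69fce_al.TransposedPoissonExtension
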